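import Pool.Agent.Q48.RD.PWin3
import Pool.Agent.TH464.PW.Quad

/-!
# Cuban primes in several disjoint short intervals at once

The cuban primes `(n + 1) ^ 3 - n ^ 3 = 3 n ^ 2 + 3 n + 1` in several disjoint short intervals of `n` at once.

Let `g ≥ 2` be a base and `K` a large number of digits. For every `i < K` let `A i` be an arbitrary set of digits, such that the number
`|A 0| ⋯ |A (K - 1)|` of the integers `t < g ^ K` whose `i`-th digit belongs to `A i` for all `i < K` is at least `exp (- δ K) g ^ K`.
Let `N ≤ g ^ (E K)` be arbitrary. We consider the numbers `x = N + t` with these `t`: they form a set with only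
`y ^ (1 - δ')` elements in an interval of length `y = g ^ K`, which may be an arbitrarily small power of `x`.

Let `s_1, …, s_l ≥ 0` be different integers, `l ≥ 2` (for example `0, 1, …, l - 1`: adjacent intervals), and let `T ≤ g ^ (E K)`. We
count the `n` in the disjoint short intervals `(x + s_i T, x + (s_i + 1) T]`, `i ≤ l`, for which `3 n ^ 2 + 3 n + 1` is a prime (or an almost prime).
The conjecture of Bateman and Horn, on average over the shifts, predicts that these `l` numbers behave like independent random
variables: the mean value over `x` of the product of their `k`-th powers should have the order of magnitude of the product of the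
mean values, where one of these has the order of magnitude of `(T / K) ^ k` for `T ≥ K` and of `T / K` for `T ≤ K`. We prove, for all
these sets of `x`,

(1) the upper bound of this order for the primes: in particular, for `T ≤ K` at most the predicted proportion `C (T / K) ^ l` of the
`x` have such primes in all the `l` intervals at once;

(2) the exact order of magnitude for the almost primes;

(3) that for at least `κ min (1, T / K) ^ l` of all these `x` EVERY one of the `l` intervals contains at least
`κ max (1, T / K)` such almost primes.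
-/

set_option autoImplicit false

namespace Pool.Agent.Results.MP_22d6bb_nt.DisjointIntervals

open Filter Finset
open Pool.Agent.Q315.RD Pool.Agent.Q48.RD

/-- The number of the `n` with `x < n ≤ x + T` for which `3 n ^ 2 + 3 n + 1` is a prime. -/
def primesIn (x T : ℕ) : ℕ := ((Ioc x (x + T)).filter fun n => (3 * n ^ 2 + 3 * n + 1).Prime).card

open Classical in
/-- The number of the `n` with `x < n ≤ x + T` for which `3 n ^ 2 + 3 n + 1` has at most `r` prime factors, all larger than `y ^ (1 / r)`. -/
noncomputable def almostPrimesIn (y r : ℕ) (x T : ℕ) : ℕ := ((Ioc x (x + T)).filter fun n => AlmostPrime y r (3 * n ^ 2 + 3 * n + 1)).card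

open Classical in
/-- The integers `t < g ^ K` whose `i`-th digit belongs to `A i` for all `i < K`. -/
noncomputable def digitSet (g K : ℕ) (A : ℕ → Finset ℕ) : Finset ℕ := (range (g ^ K)).filter (HasDigits g K A)

/-- The predicted order of magnitude of the mean value of the `k`-th power for one interval: `T / K` for `T ≤ K` and `(T / K) ^ k`
for `T ≥ K`. -/
noncomputable def order (k T K : ℕ) : ℝ := min 1 ((T : ℝ) / K) * max 1 ((T : ℝ) / K) ^ k

/-- **Cuban primes and almost primes in several disjoint short intervals at once.** -/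
theorem result {l : ℕ} (hl : 2 ≤ l) (s : Fin l → ℕ) (hinj : Function.Injective s) (k : ℕ) (hk : 1 ≤ k) (E : ℕ) :
    ∃ δ : ℝ, 0 < δ ∧ ∃ r₀ : ℕ, 2 ≤ r₀ ∧ ∀ r : ℕ, r₀ ≤ r → ∀ g : ℕ, 2 ≤ g → ∃ κ C : ℝ, ∃ T₀ : ℕ, 0 < κ ∧ 0 < C ∧
      ∀ᶠ K : ℕ in atTop, ∀ N T : ℕ, N ≤ g ^ (E * K) → 1 ≤ T → T ≤ g ^ (E * K) →
        ∀ A : ℕ → Finset ℕ, (∀ i < K, A i ⊆ range g) → (g : ℝ) ^ K ≤ Real.exp (δ * K) * choices K A →
        -- the primes
        ∑ t ∈ digitSet g K A, ∏ i, (primesIn (N + t + s i * T) T : ℝ) ^ k ≤ C * order k T K ^ l * choices K A ∧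
        -- the almost primes
        ∑ t ∈ digitSet g K A, ∏ i, (almostPrimesIn (g ^ K) r (N + t + s i * T) T : ℝ) ^ k ≤ C * order k T K ^ l * choices K A ∧
        (T₀ ≤ T →
          κ * order k T K ^ l * choices K A ≤ ∑ t ∈ digitSet g K A, ∏ i, (almostPrimesIn (g ^ K) r (N + t + s i * T) T : ℝ) ^ k ∧
          -- all the `l` intervals contain many almost prime values at once
          κ * min 1 ((T : ℝ) / K) ^ l * choices K A ≤
            (((digitSet g K A).filter fun t => ∀ i, κ * max 1 ((T : ℝ) / K) ≤ almostPrimesIn (g ^ K) r (N + t + s i * T) T).card : ℝ)) := by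
  classical
  obtain ⟨δ, hδ, r0, hr0, H⟩ := winMoments (by omega : 0 < l) (Pool.Agent.TH464.PW.quad 3 3 1)
    { irr := fun _ => Pool.Agent.TH464.PW.quad_irr _ _ _ (by norm_num) (by
          intro p hp hh
          have h1 : (p : ℤ) ∣ 1 := by
            have h2 := hh.1
            have h3 := hh.2.1
            have h4 := hh.2.2
            exact h4
          have h5 := Int.le_of_dvd one_pos h1
          have h6 := hp.two_le
          omega) (by norm_num)
      deg := fun _ => by rw [Pool.Agent.TH464.PW.quad_deg _ _ _ (by norm_num)]; norm_num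
      lead := fun _ => by rw [Pool.Agent.TH464.PW.quad_lead _ _ _ (by norm_num)]; norm_num
      inj := fun i j _ => Subsingleton.elim i j
      adm := fun p hp => by
        have hp2 := hp.two_le
        exact ⟨0, fun _ h => by rw [Pool.Agent.TH464.PW.quad_eval] at h; have := Int.le_of_dvd (by norm_num) h; norm_num at this; omega⟩ }
    (fun n => 3 * n ^ 2 + 3 * n + 1) (fun n => by rw [Pool.Agent.TH464.PW.quad_eval]; push_cast; ring) (fun n => by nlinarith) s hinj k hk E
  refine ⟨δ, hδ, r0, hr0, fun r hr g hg => ?_⟩
  obtain ⟨κ, C, T₀, hκ, hC, H⟩ := H r hr g hg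
  refine ⟨κ, C, T₀, hκ, hC, ?_⟩
  filter_upwards [H] with K HK
  intro N T hN hT1 hT A hA1 hA2
  obtain ⟨h1, h2, h3⟩ := HK N T hN hT1 hT A ⟨hA1, hA2⟩
  have e1 : ∀ x, primesIn x T = numIn (fun n => (3 * n ^ 2 + 3 * n + 1).Prime) x T := by
    intro x
    unfold primesIn numIn
    congr!
  have e2 : ∀ x, almostPrimesIn (g ^ K) r x T = numIn (fun n => AlmostPrime (g ^ K) r (3 * n ^ 2 + 3 * n + 1)) x T := by
    intro x
    unfold almostPrimesIn numIn
    congr!
  simp only [e1, e2]
  refine ⟨h1, h2, fun hgT => ⟨(h3 hgT).1, (h3 hgT).2.trans (le_of_eq ?_)⟩⟩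
  congr! 2

end Pool.Agent.Results.MP_22d6bb_nt.DisjointIntervals
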