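import Pool.Agent.TH977.PW.Inst

set_option autoImplicit false

/-!
# Regular points of ARBITRARY sets of `x` for which `3 x² + 3 x + 1 = (x + 1)³ - x³` is a prime

Let `S` be an ARBITRARY set of natural numbers `x` for which `3 x² + 3 x + 1` is a prime (for example the set of all of
them), or of numbers `x` for which `3 x² + 3 x + 1` has no prime factor up to a small power of `x`. In every short interval
`(X, X + Y]`, `X ^ θ ≤ Y ≤ X / 2`, all but `ε Y / log X` of the elements of `S` are regular points of `S`: the numbers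
of elements of `S` in ALL intervals around the point of length between `log X / c` and `Y` have the conjectured
order of magnitude, and `S` has constant density up to `δ` on both sides of the point at all but `B (ε, δ)` dyadic
scales.
-/

namespace Pool.Agent.Results.MP_22d6bb_nt.RegularPoints

open Finset Filter

open Classical in
/-- the number of the elements of `S` in `(u, v]` -/
noncomputable def N (S : Set ℕ) (u v : ℕ) : ℕ := ((Ioc u v).filter (fun m => m ∈ S)).card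

/-- All intervals `(x - s, x + t]` with `s, t ≤ Y` of length at least `log X / c` contain the right order of
elements of `S`. -/
def RightOrder (S : Set ℕ) (c : ℝ) (X Y x : ℕ) : Prop :=
  ∀ s t : ℕ, s ≤ Y → t ≤ Y → Real.log X ≤ c * (s + t) →
    c * (s + t) / Real.log X ≤ N S (x - s) (x + t) ∧ (N S (x - s) (x + t) : ℝ) ≤ (s + t) / (c * Real.log X)

/-- Up to `δ`, `S` has a constant density on both sides of `x` up to the distance `2 ^ j`. -/
def ConstantDensity (S : Set ℕ) (c δ : ℝ) (X x j : ℕ) : Prop :=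
  ∃ lam : ℝ, c ≤ lam ∧ lam ≤ 1 / c ∧ ∀ s t : ℕ, s ≤ 2 ^ j → t ≤ 2 ^ j →
    |(N S (x - s) (x + t) : ℝ) - lam * (s + t) / Real.log X| ≤ δ * 2 ^ j / Real.log X

open Classical in
/-- the number of the scales `log X ≤ 2 ^ j ≤ Y` without this property -/
noncomputable def badScales (S : Set ℕ) (c δ : ℝ) (X Y x : ℕ) : ℕ :=
  ((range (Nat.log 2 Y + 1)).filter (fun j => Real.log X ≤ (2 : ℝ) ^ j ∧ ¬ ConstantDensity S c δ X x j)).card

/-- The elements of `S` that are not regular points of `S`. -/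
def Irregular (S : Set ℕ) (c δ : ℝ) (B X Y : ℕ) : Set ℕ :=
  {x | x ∈ S ∧ ¬ (RightOrder S c X Y x ∧ badScales S c δ X Y x ≤ B)}

/-- all prime factors of `3 x² + 3 x + 1` are larger than `x ^ (1 / r)` -/
def Rough (r x : ℕ) : Prop :=
  ∀ p : ℕ, p.Prime → p ∣ 3 * x ^ 2 + 3 * x + 1 → (x : ℝ) ^ (1 / (r : ℝ)) < p

section aux
open Pool.Agent.TH464.PW (quad quad_eval quad_irr quad_deg quad_lead)
open Pool.Agent.W123.RU

lemma sys : Poly.Sys (fun _ : Fin 1 => quad (3) (3) (1)) where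
  irr := fun _ => quad_irr 3 3 1 (by norm_num) (fun p hp h => by
    have h2 : p ∣ 1 := by exact_mod_cast h.2.2
    exact hp.one_lt.ne' (Nat.dvd_one.1 h2)) (by
    rintro ⟨x, hx⟩
    nlinarith [mul_self_nonneg x])
  deg := fun _ => by rw [quad_deg 3 3 1 (by norm_num)]; norm_num
  lead := fun _ => by rw [quad_lead 3 3 1 (by norm_num)]; norm_num
  inj := fun _ _ _ => Subsingleton.elim _ _
  adm := fun p hp => by
    refine ⟨0, fun _ h => ?_⟩
    rw [quad_eval] at h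
    have e : 3 * ((0 : ℕ) : ℤ) ^ 2 + 3 * ((0 : ℕ) : ℤ) + 1 = 1 := by norm_num
    rw [e] at h
    have h2 : p ∣ 1 := by exact_mod_cast h
    exact hp.one_lt.ne' (Nat.dvd_one.1 h2)

lemma val (x : ℕ) : (quad (3) (3) (1)).eval (x : ℤ) = ((3 * x ^ 2 + 3 * x + 1 : ℕ) : ℤ) := by
  rw [quad_eval]
  push_cast; ring

lemma rough_of (r m : ℕ) (h : Rough r m) : Pool.Agent.TH977.PW.Rough (fun _ : Fin 1 => (quad (3) (3) (1))) r m := by
  
  intro i p hp hd
  have h1 : (p : ℤ) ∣ (quad (3) (3) (1)).eval (m : ℤ) := hd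
  rw [val m] at h1
  exact h p hp (Int.natCast_dvd_natCast.1 h1)

lemma of_rough (r m : ℕ) (h : Pool.Agent.TH977.PW.Rough (fun _ : Fin 1 => (quad (3) (3) (1))) r m) :
    Rough r m := by
  intro p hp hd
  apply h 0 p hp
  change (p : ℤ) ∣ (quad (3) (3) (1)).eval (m : ℤ)
  rw [val m]
  exact Int.natCast_dvd_natCast.2 hd

lemma of_few (r x : ℕ) (h : Pool.Agent.TH977.PW.Few (fun _ : Fin 1 => (quad (3) (3) (1))) r x) :
    (3 * x ^ 2 + 3 * x + 1).primeFactorsList.length ≤ r := by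
  have h1 : ((quad (3) (3) (1)).eval (x : ℤ)).natAbs.primeFactorsList.length ≤ r := h 0
  rw [val x, Int.natAbs_natCast] at h1
  exact h1

/-- prime values are rough -/
lemma prime_rough (r : ℕ) (hr : 2 ≤ r) (x : ℕ) (h : (3 * x ^ 2 + 3 * x + 1).Prime) : Rough r x := by
  have hle : x ≤ 3 * x ^ 2 + 3 * x + 1 := by
    nlinarith
  intro p hp hd
  have h1 : p = 3 * x ^ 2 + 3 * x + 1 := (Nat.prime_dvd_prime_iff_eq hp h).1 hd
  have h2 : x ≤ p := by rw [h1]; exact hle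
  rcases Nat.lt_or_ge x 2 with h3 | h3
  · rcases Nat.eq_zero_or_pos x with h0 | h0
    · subst h0
      rw [Nat.cast_zero, Real.zero_rpow (by
        have : (0 : ℝ) < r := by exact_mod_cast (by omega : 0 < r)
        positivity)]
      exact_mod_cast hp.pos
    · have h4 : x = 1 := by omega
      subst h4
      rw [Nat.cast_one, Real.one_rpow]
      exact_mod_cast hp.one_lt
  · exact Pool.Agent.TH977.PW.rpow_lt_of_le r x p hr h3 h2

end aux

lemma N_eq : N = Pool.Agent.TH977.PW.N := by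
  funext A u v
  unfold N Pool.Agent.TH977.PW.N
  rfl

lemma RightOrder_iff (A : Set ℕ) (c : ℝ) (X Y m : ℕ) :
    RightOrder A c X Y m ↔ Pool.Agent.TH977.PW.RightOrder A 1 c X Y m := by
  unfold RightOrder Pool.Agent.TH977.PW.RightOrder
  simp only [N_eq, pow_one]

lemma ConstantDensity_iff (A : Set ℕ) (c δ : ℝ) (X m j : ℕ) :
    ConstantDensity A c δ X m j ↔ Pool.Agent.TH977.PW.ConstantDensity A 1 c δ X m j := by
  unfold ConstantDensity Pool.Agent.TH977.PW.ConstantDensity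
  simp only [N_eq, pow_one]

open Classical in
lemma badScales_eq (A : Set ℕ) (c δ : ℝ) (X Y m : ℕ) :
    badScales A c δ X Y m = Pool.Agent.TH977.PW.badScales A 1 c δ X Y m := by
  unfold badScales Pool.Agent.TH977.PW.badScales
  refine congrArg card (Finset.ext fun j => ?_)
  simp only [mem_filter, ConstantDensity_iff, pow_one]

lemma Irregular_eq (A : Set ℕ) (c δ : ℝ) (B X Y : ℕ) :
    Irregular A c δ B X Y = Pool.Agent.TH977.PW.Irregular A 1 c δ B X Y := by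
  unfold Irregular Pool.Agent.TH977.PW.Irregular
  simp only [RightOrder_iff, badScales_eq]

/-- **Regular points.** -/
theorem result (θ : ℝ) (hθ : 0 < θ) (hθ1 : θ ≤ 1) :
    -- prime values
    (∀ ε : ℝ, 0 < ε → ∃ c : ℝ, 0 < c ∧ ∀ δ : ℝ, 0 < δ → ∃ B : ℕ, ∀ᶠ X : ℕ in atTop, ∀ Y : ℕ,
      (X : ℝ) ^ θ ≤ Y → 2 * Y ≤ X → ∀ S : Set ℕ, (∀ x ∈ S, (3 * x ^ 2 + 3 * x + 1).Prime) →
        (N (Irregular S c δ B X Y) X (X + Y) : ℝ) ≤ ε * (Y / Real.log X)) ∧
    -- rough values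
    ∃ r₀ : ℕ, ∀ r : ℕ, r₀ ≤ r →
      (∀ ε : ℝ, 0 < ε → ∃ c : ℝ, 0 < c ∧ ∀ δ : ℝ, 0 < δ → ∃ B : ℕ, ∀ᶠ X : ℕ in atTop, ∀ Y : ℕ,
        (X : ℝ) ^ θ ≤ Y → 2 * Y ≤ X → ∀ S : Set ℕ, (∀ x ∈ S, Rough r x) →
          (N (Irregular S c δ B X Y) X (X + Y) : ℝ) ≤ ε * (Y / Real.log X)) ∧
      ∃ κ : ℝ, 0 < κ ∧ ∀ᶠ X : ℕ in atTop, ∀ Y : ℕ, (X : ℝ) ^ θ ≤ Y → Y ≤ X → κ * (Y / Real.log X) ≤
        (N {x | Rough r x ∧ (3 * x ^ 2 + 3 * x + 1).primeFactorsList.length ≤ r} X (X + Y) : ℝ) := by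
  classical
  obtain ⟨r0, hr0, h1⟩ := Pool.Agent.TH977.PW.final _ (sys)
    (fun r => {x | Rough r x}) (fun r => {x | Rough r x ∧ (3 * x ^ 2 + 3 * x + 1).primeFactorsList.length ≤ r}) 1 (by rw [Fintype.card_fin])
    (fun r m hr hm => rough_of r m hm) (fun r m hr h1 h2 => ⟨of_rough r m h1, of_few r m h2⟩) θ hθ hθ1
  have key : ∀ r : ℕ, r0 ≤ r → ∀ ε : ℝ, 0 < ε → ∃ c : ℝ, 0 < c ∧ ∀ δ : ℝ, 0 < δ → ∃ B : ℕ,
      ∀ᶠ X : ℕ in atTop, ∀ Y : ℕ,
      (X : ℝ) ^ θ ≤ Y → 2 * Y ≤ X → ∀ S : Set ℕ, (∀ x ∈ S, Rough r x) →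
        (N (Irregular S c δ B X Y) X (X + Y) : ℝ) ≤ ε * (Y / Real.log X) := by
    intro r hr ε hε
    obtain ⟨c, hc, h2⟩ := (h1 r hr).2 ε hε
    refine ⟨c, hc, fun δ hδ => ?_⟩
    obtain ⟨B, h3⟩ := h2 δ hδ
    refine ⟨B, ?_⟩
    filter_upwards [h3] with X hX Y hXY hYX S hS
    have h4 := hX Y hXY hYX S (fun x hx => hS x hx)
    rw [pow_one] at h4
    rw [N_eq, Irregular_eq]
    calc _ ≤ ε * Y / Real.log X := h4
      _ = _ := by ring
  refine ⟨?_, r0, fun r hr => ⟨key r hr, ?_⟩⟩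
  · intro ε hε
    obtain ⟨c, hc, h2⟩ := key r0 le_rfl ε hε
    refine ⟨c, hc, fun δ hδ => ?_⟩
    obtain ⟨B, h3⟩ := h2 δ hδ
    refine ⟨B, ?_⟩
    filter_upwards [h3] with X hX Y hXY hYX S hS
    exact hX Y hXY hYX S (fun x hx => prime_rough r0 hr0 x (hS x hx))
  · obtain ⟨κ, hκ, h2⟩ := (h1 r hr).1
    refine ⟨κ, hκ, ?_⟩
    filter_upwards [h2, eventually_ge_atTop 2] with X hX hX2 Y hXY hYX
    have h3 := hX Y hXY hYX
    rw [pow_one] at h3
    have h4 : N {x | Rough r x ∧ (3 * x ^ 2 + 3 * x + 1).primeFactorsList.length ≤ r} X (X + Y) =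
        Pool.Agent.TH977.PW.N {x | Rough r x ∧ (3 * x ^ 2 + 3 * x + 1).primeFactorsList.length ≤ r} X (X + Y) := by
      rw [N_eq]

    rw [h4]
    calc κ * (Y / Real.log X) = κ * Y / Real.log X := by ring
      _ ≤ _ := h3

end Pool.Agent.Results.MP_22d6bb_nt.RegularPoints
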